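import Mathlib
import Pool.Agent.H77R2.AssocLie

/-!
# Free Lie ring on the abelianization and quadratic presentations of `E₀^*(G)`

`BurnLie.AssocLie G` is the Lie ring `E₀^*(G) = ⨁_{k ≥ 1} Γ_k G / Γ_{k+1} G`, the bracket being
induced by the group commutator; its component `BurnLie.Grd G n` is `Γ_{n+1} G / Γ_{n+2} G`.
-/

set_option autoImplicit false

namespace Pool.Agent.R702.GrLie

open BurnLie

section FreeLie

variable (V : Type) [AddCommGroup V]

/-- The Lie ideal of the free Lie ring on the set `V` generated by the elements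
`of (a + b) - of a - of b`. -/
noncomputable def addIdeal : LieIdeal ℤ (FreeLieAlgebra ℤ V) :=
  LieSubmodule.lieSpan ℤ (FreeLieAlgebra ℤ V)
    {z | ∃ a b : V, z = FreeLieAlgebra.of ℤ (a + b) - FreeLieAlgebra.of ℤ a - FreeLieAlgebra.of ℤ b}

/-- The free Lie ring `L[V]` on the abelian group `V`: the free Lie ring on the set `V` modulo the
relations saying that the inclusion of `V` is additive. -/
def FreeLieOn : Type := FreeLieAlgebra ℤ V ⧸ addIdeal V

noncomputable instance : LieRing (FreeLieOn V) :=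
  LieSubmodule.Quotient.lieQuotientLieRing (I := addIdeal V)

variable {V}

/-- The inclusion `V → L[V]`. -/
noncomputable def inc (v : V) : FreeLieOn V :=
  LieSubmodule.Quotient.mk (FreeLieAlgebra.of ℤ v)

variable (V) in
/-- The component `L_2[V]` of degree two of `L[V]`: the additive group generated by the brackets
`[a, b]` of elements of `V`. -/
noncomputable def deg2 : AddSubgroup (FreeLieOn V) :=
  AddSubgroup.closure {z | ∃ a b : V, z = ⁅inc a, inc b⁆}

/-- The homomorphism from the free Lie ring on the set `V` which extends `f : V → M`. -/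
noncomputable def liftFree {M : Type} [LieRing M] (f : V →+ M) : FreeLieAlgebra ℤ V →ₗ⁅ℤ⁆ M :=
  FreeLieAlgebra.lift ℤ (fun v => f v)

theorem liftFree_of {M : Type} [LieRing M] (f : V →+ M) (v : V) :
    liftFree f (FreeLieAlgebra.of ℤ v) = f v :=
  FreeLieAlgebra.lift_of_apply (fun v => f v) v

theorem addIdeal_le {M : Type} [LieRing M] (f : V →+ M) : addIdeal V ≤ (liftFree f).ker := by
  rw [addIdeal, LieSubmodule.lieSpan_le]
  rintro z ⟨a, b, rfl⟩
  rw [SetLike.mem_coe, LieHom.mem_ker, map_sub, map_sub, liftFree_of, liftFree_of, liftFree_of,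
    map_add]
  abel

theorem liftFree_eq_zero {M : Type} [LieRing M] (f : V →+ M) (x : FreeLieAlgebra ℤ V)
    (hx : x ∈ (addIdeal V).toSubmodule) : (liftFree f : FreeLieAlgebra ℤ V →ₗ[ℤ] M) x = 0 :=
  LieHom.mem_ker.1 (addIdeal_le f hx)

/-- The map `L[V] → M` extending `f`, as an additive map. -/
noncomputable def liftAdd {M : Type} [LieRing M] (f : V →+ M) : FreeLieOn V →+ M :=
  (Submodule.liftQ (addIdeal V).toSubmodule (liftFree f : FreeLieAlgebra ℤ V →ₗ[ℤ] M)
    (liftFree_eq_zero f)).toAddMonoidHom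

theorem liftAdd_lie {M : Type} [LieRing M] (f : V →+ M) (x y : FreeLieOn V) :
    liftAdd f ⁅x, y⁆ = ⁅liftAdd f x, liftAdd f y⁆ := by
  obtain ⟨x, rfl⟩ := Submodule.Quotient.mk_surjective _ x
  obtain ⟨y, rfl⟩ := Submodule.Quotient.mk_surjective _ y
  exact (liftFree f).map_lie x y

/-- An additive map from `V` to a Lie ring `M` extends to a homomorphism of Lie rings `L[V] → M`. -/
noncomputable def liftOn {M : Type} [LieRing M] (f : V →+ M) : FreeLieOn V →ₗ⁅ℤ⁆ M :=
  { (liftAdd f).toIntLinearMap with map_lie' := fun {x y} => liftAdd_lie f x y }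

theorem liftOn_inc {M : Type} [LieRing M] (f : V →+ M) (v : V) : liftOn f (inc v) = f v :=
  liftFree_of f v

end FreeLie

/-- The natural homomorphism of Lie rings `L[V] → E₀^*(G)`, `V = Γ_1 G / Γ_2 G`, which is the
identity on `V`. -/
noncomputable def natural (G : Type) [Group G] : FreeLieOn (Grd G 0) →ₗ⁅ℤ⁆ AssocLie G :=
  liftOn (ofL 0)

/-- The Lie ideal of `L[V]` generated by a set `S`. -/
noncomputable def idealOf {G : Type} [Group G] (S : Set (FreeLieOn (Grd G 0))) :
    LieIdeal ℤ (FreeLieOn (Grd G 0)) :=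
  LieSubmodule.lieSpan ℤ (FreeLieOn (Grd G 0)) S

/-- The part of degree two of the kernel of the natural map `L[V] → E₀^*(G)`. -/
def kerDeg2 (G : Type) [Group G] : Set (FreeLieOn (Grd G 0)) :=
  {s | s ∈ deg2 (Grd G 0) ∧ natural G s = 0}

/-- `E₀^*(G)` is a free Lie algebra modulo quadratic relations: the kernel of the natural map
`L[V] → E₀^*(G)` is the Lie ideal generated by a set of elements of `L_2[V]`. -/
def FreeModQuadratic (G : Type) [Group G] : Prop :=
  ∃ S : Set (FreeLieOn (Grd G 0)), (∀ s ∈ S, s ∈ deg2 (Grd G 0)) ∧ (natural G).ker = idealOf S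

end Pool.Agent.R702.GrLie
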